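import Mathlib

open Set Filter Topology
open scoped ContDiff Manifold

namespace Pool.Agent.Results.MP_430a41_an.HolSpanFails

/-! ### Definitions used in the statement -/

noncomputable def dirC {n : ℕ} (B : (Fin n → ℝ) → (Fin n → ℂ)) (x : Fin n → ℝ)
    (v : Fin n → ℂ) : Fin n → ℂ :=
  fderiv ℝ B x (fun i => (v i).re) + Complex.I • fderiv ℝ B x (fun i => (v i).im)

noncomputable def cbracket {n : ℕ} (A B : (Fin n → ℝ) → (Fin n → ℂ)) (x : Fin n → ℝ) :
    Fin n → ℂ :=
  dirC B x (A x) - dirC A x (B x)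

noncomputable def push {n : ℕ} (h : (Fin n → ℝ) → (Fin n → ℝ)) (x : Fin n → ℝ)
    (v : Fin n → ℂ) : Fin n → ℂ :=
  fun i => (fderiv ℝ h x (fun j => (v j).re) i : ℂ) +
    Complex.I * (fderiv ℝ h x (fun j => (v j).im) i : ℂ)

structure CRStructure (n r : ℕ) where
  frame : Fin r → (Fin n → ℝ) → (Fin n → ℂ)
  smooth : ∀ i, ContDiff ℝ ∞ (frame i)
  indep : ∀ x, LinearIndependent ℂ
    (Sum.elim (fun i => frame i x) (fun i j => (starRingEnd ℂ) (frame i x j)) :
      Fin r ⊕ Fin r → (Fin n → ℂ))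
  invol : ∀ i j x, cbracket (frame i) (frame j) x ∈ Submodule.span ℂ (Set.range fun l => frame l x)

def CRStructure.H {n r : ℕ} (S : CRStructure n r) (x : Fin n → ℝ) : Submodule ℂ (Fin n → ℂ) :=
  Submodule.span ℂ (Set.range fun l => S.frame l x)

structure IsCRDiffeo {n r : ℕ} (S : CRStructure n r) (U V : Set (Fin n → ℝ))
    (h g : (Fin n → ℝ) → (Fin n → ℝ)) : Prop where
  openU : IsOpen U
  openV : IsOpen V
  mapsTo : ∀ x ∈ U, h x ∈ V
  mapsTo' : ∀ y ∈ V, g y ∈ U
  left_inv : ∀ x ∈ U, g (h x) = x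
  right_inv : ∀ y ∈ V, h (g y) = y
  smooth : ContDiffOn ℝ ∞ h U
  smooth' : ContDiffOn ℝ ∞ g V
  cr : ∀ x ∈ U, push h x '' (S.H x : Set (Fin n → ℂ)) = (S.H (h x) : Set (Fin n → ℂ))

def CRStructure.orbit {n r : ℕ} (S : CRStructure n r) (p : Fin n → ℝ) : Set (Fin n → ℝ) :=
  {q | ∃ U V h g, IsCRDiffeo S U V h g ∧ p ∈ U ∧ h p = q}

def CRStructure.IsInfinitesimalAut {n r : ℕ} (S : CRStructure n r) (q : Fin n → ℝ)
    (X : (Fin n → ℝ) → (Fin n → ℝ)) : Prop :=
  ∃ W W' : Set (Fin n → ℝ), IsOpen W ∧ IsOpen W' ∧ q ∈ W' ∧ W' ⊆ W ∧ ContDiffOn ℝ ∞ X W ∧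
    ∃ (ε : ℝ) (F : ℝ → (Fin n → ℝ) → (Fin n → ℝ)), 0 < ε ∧ (∀ x ∈ W', F 0 x = x) ∧
      (∀ τ, |τ| < ε → ∀ x ∈ W', F τ x ∈ W ∧ HasDerivAt (fun σ => F σ x) (X (F τ x)) τ) ∧
      (∀ τ, |τ| < ε → ∃ V g, IsCRDiffeo S W' V (F τ) g)


/-- `ι : N → F` is a smooth injective immersion of the manifold `N` (modelled on `E`) into the
vector space `F`. -/
def IsInjectiveImmersion (E F N : Type) [NormedAddCommGroup E] [NormedSpace ℝ E]
    [NormedAddCommGroup F] [NormedSpace ℝ F] [TopologicalSpace N] [ChartedSpace E N]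
    (ι : N → F) : Prop :=
  ContMDiff 𝓘(ℝ, E) 𝓘(ℝ, F) ∞ ι ∧ Function.Injective ι ∧
    ∀ y, Function.Injective (mfderiv 𝓘(ℝ, E) 𝓘(ℝ, F) ι y)

/-- The tangent space at `ι y` of the submanifold `range ι`: the image of the differential. -/
noncomputable def tangentSpaceOfImage (E F N : Type) [NormedAddCommGroup E] [NormedSpace ℝ E]
    [NormedAddCommGroup F] [NormedSpace ℝ F] [TopologicalSpace N] [ChartedSpace E N]
    (ι : N → F) (y : N) : Submodule ℝ F :=
  LinearMap.range (mfderiv 𝓘(ℝ, E) 𝓘(ℝ, F) ι y).toLinearMap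

/-! ### Construction of the structure function -/

/-- bounded derivatives for a function on the plane which is 1-periodic in the first variable and
vanishes for large second variable -/
lemma bdd_periodic (g : ℝ × ℝ → ℝ) (hg : ContDiff ℝ ∞ g) (hper : ∀ s t, g (s + 1, t) = g (s, t))
    (T : ℝ) (hT : ∀ s t, T < |t| → g (s, t) = 0) (k : ℕ) :
    ∃ C, ∀ x, ‖iteratedFDeriv ℝ k g x‖ ≤ C := by
  have hcont : Continuous (iteratedFDeriv ℝ k g) := hg.continuous_iteratedFDeriv (mod_cast le_top)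
  have hK : IsCompact ((Icc (0:ℝ) 1) ×ˢ (Icc (-T) T)) := isCompact_Icc.prod isCompact_Icc
  obtain ⟨C, hC⟩ := hK.exists_bound_of_continuousOn hcont.continuousOn
  refine ⟨max C 0, ?_⟩
  have hperz : ∀ (n : ℤ), (fun x : ℝ × ℝ => g (x + ((n : ℝ), 0))) = g := by
    intro n
    have h1 : ∀ s t, g (s + n, t) = g (s, t) := by
      intro s t
      have hp : Function.Periodic (fun s => g (s, t)) 1 := fun s => hper s t
      have := hp.int_mul n s
      simpa using this
    funext x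
    rcases x with ⟨s, t⟩
    simpa using h1 s t
  rintro ⟨s, t⟩
  by_cases ht : |t| ≤ T
  · have h2 : iteratedFDeriv ℝ k g (s, t) = iteratedFDeriv ℝ k g ((s, t) + (((-⌊s⌋ : ℤ) : ℝ), 0)) := by
      have := iteratedFDeriv_comp_add_right (𝕜 := ℝ) (f := g) k ((((-⌊s⌋ : ℤ) : ℝ), (0:ℝ))) (s, t)
      rw [hperz] at this
      exact this
    rw [h2]
    refine (hC _ ?_).trans (le_max_left _ _)
    constructor
    · simp only [Prod.fst_add, Int.cast_neg]
      constructor
      · have := Int.floor_le s; simp; linarith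
      · have := (Int.lt_floor_add_one s).le; simp; linarith
    · simp only [Prod.snd_add, add_zero]
      exact abs_le.mp ht
  · push Not at ht
    have h3 : g =ᶠ[𝓝 (s, t)] (fun _ => (0:ℝ)) := by
      have : ∀ᶠ y : ℝ × ℝ in 𝓝 (s, t), T < |y.2| := by
        have : Continuous (fun y : ℝ × ℝ => |y.2|) := by fun_prop
        exact this.continuousAt.eventually (lt_mem_nhds ht)
      filter_upwards [this] with y hy
      exact hT y.1 y.2 hy
    have h4 := h3.iteratedFDeriv ℝ k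
    have h5 := h4.eq_of_nhds
    rw [h5]
    have : iteratedFDeriv ℝ k (fun _ : ℝ × ℝ => (0:ℝ)) = 0 := by
      exact iteratedFDeriv_fun_zero
    rw [this]
    simp

lemma coeff {E : Type*} [NormedAddCommGroup E] [NormedSpace ℝ E] (g : E → ℝ)
    (hg : ContDiff ℝ ∞ g) (hb : ∀ k : ℕ, ∃ C, ∀ x, ‖iteratedFDeriv ℝ k g x‖ ≤ C) (j : ℕ) :
    ∃ a : ℝ, 0 < a ∧ ∀ c : ℝ, |c| ≤ a → ∀ k ≤ j, ∀ x,
      ‖iteratedFDeriv ℝ k (fun x => c * g x) x‖ ≤ (1 / 2) ^ j := by
  choose C hC using hb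
  have hC0 : ∀ k, 0 ≤ C k := fun k => (norm_nonneg _).trans (hC k 0)
  set M : ℝ := 1 + ∑ k ∈ Finset.range (j + 1), C k with hM
  have hMpos : 0 < M := by
    have : 0 ≤ ∑ k ∈ Finset.range (j + 1), C k := Finset.sum_nonneg fun k _ => hC0 k
    linarith
  refine ⟨(1 / 2) ^ j / M, by positivity, ?_⟩
  intro c hc k hk x
  have h1 : iteratedFDeriv ℝ k (fun x => c * g x) x = c • iteratedFDeriv ℝ k g x := by
    have : (fun x => c * g x) = c • g := by
      funext x; simp
    rw [this, iteratedFDeriv_const_smul_apply]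
    exact hg.contDiffAt.of_le (mod_cast le_top)
  rw [h1, norm_smul, Real.norm_eq_abs]
  have h2 : C k ≤ M := by
    have : C k ≤ ∑ k ∈ Finset.range (j + 1), C k :=
      Finset.single_le_sum (f := C) (fun i _ => hC0 i) (Finset.mem_range.2 (by omega))
    linarith
  calc |c| * ‖iteratedFDeriv ℝ k g x‖ ≤ ((1 / 2) ^ j / M) * M := by
        gcongr
        exact (hC k x).trans h2
    _ = (1 / 2) ^ j := by field_simp

lemma smooth_sum {E : Type*} [NormedAddCommGroup E] [NormedSpace ℝ E] (g : ℕ → E → ℝ)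
    (hg : ∀ j, ContDiff ℝ ∞ (g j)) (c : ℕ → ℝ)
    (h : ∀ j, ∀ k ≤ j, ∀ x, ‖iteratedFDeriv ℝ k (fun x => c j * g j x) x‖ ≤ (1 / 2) ^ j) :
    ContDiff ℝ ∞ (fun x => ∑' j, c j * g j x) := by
  refine contDiff_tsum_of_eventually (v := fun _ j => (1 / 2 : ℝ) ^ j) (fun j => ?_) (fun k _ => ?_) ?_
  · exact contDiff_const.mul (hg j)
  · exact summable_geometric_of_lt_one (by norm_num) (by norm_num)
  · intro k _
    rw [Nat.cofinite_eq_atTop, Filter.eventually_atTop]
    exact ⟨k, fun j hj x => h j k hj x⟩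

/-- the points `t_j = 2^{-j}` -/
noncomputable def tt (j : ℕ) : ℝ := (1 / 2) ^ j

lemma tt_pos (j : ℕ) : 0 < tt j := by unfold tt; positivity

lemma tt_lt_of_lt {i j : ℕ} (h : i < j) : tt j ≤ tt i / 2 := by
  unfold tt
  have : j = (j - (i+1)) + (i + 1) := by omega
  rw [this, pow_add, pow_succ (1/2 : ℝ) i]
  have h1 : (1 / 2 : ℝ) ^ (j - (i + 1)) ≤ 1 := pow_le_one₀ (by norm_num) (by norm_num)
  have h2 : (0:ℝ) < (1 / 2) ^ i := by positivity
  nlinarith

/-- wide bump around `t_j` -/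
noncomputable def wide (j : ℕ) : ContDiffBump (tt j) :=
  ⟨tt j / 8, tt j / 4, by have := tt_pos j; positivity, by have := tt_pos j; linarith⟩

/-- narrow bump around `t_j` -/
noncomputable def narrow (j : ℕ) : ContDiffBump (tt j) :=
  ⟨tt j / 16, tt j / 8, by have := tt_pos j; positivity, by have := tt_pos j; linarith⟩

lemma wide_eq_one {j : ℕ} {t : ℝ} (h : |t - tt j| ≤ tt j / 8) : wide j t = 1 := by
  apply ContDiffBump.one_of_mem_closedBall
  simpa [wide, Real.dist_eq] using h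

lemma wide_eq_zero {j : ℕ} {t : ℝ} (h : tt j / 4 ≤ |t - tt j|) : wide j t = 0 := by
  apply ContDiffBump.zero_of_le_dist
  simpa [wide, Real.dist_eq] using h

lemma narrow_eq_zero {j : ℕ} {t : ℝ} (h : tt j / 8 ≤ |t - tt j|) : narrow j t = 0 := by
  apply ContDiffBump.zero_of_le_dist
  simpa [narrow, Real.dist_eq] using h

lemma narrow_self (j : ℕ) : narrow j (tt j) = 1 := by
  apply ContDiffBump.one_of_mem_closedBall
  have := tt_pos j
  simp [narrow]
  linarith

lemma sep {i j : ℕ} (hij : i ≠ j) {t : ℝ} (h : |t - tt j| < tt j / 4) : tt i / 4 ≤ |t - tt i| := by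
  rcases lt_or_gt_of_ne hij with hlt | hlt
  · have h1 := tt_lt_of_lt hlt
    have h2 := tt_pos i
    have h3 := tt_pos j
    rw [abs_lt] at h
    rw [abs_of_neg (by linarith)]
    linarith
  · have h1 := tt_lt_of_lt hlt
    have h2 := tt_pos i
    have h3 := tt_pos j
    rw [abs_lt] at h
    rw [abs_of_pos (by linarith)]
    linarith

lemma bdd_wide (j k : ℕ) : ∃ C, ∀ x, ‖iteratedFDeriv ℝ k (fun t => wide j t) x‖ ≤ C := by
  have h1 : HasCompactSupport (iteratedFDeriv ℝ k (fun t => wide j t)) :=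
    (wide j).hasCompactSupport.iteratedFDeriv k
  have h2 : Continuous (iteratedFDeriv ℝ k (fun t => wide j t)) :=
    ContDiff.continuous_iteratedFDeriv (n := ∞) (mod_cast le_top) (wide j).contDiff
  exact h2.bounded_above_of_compact_support h1

/-- the oscillating building blocks -/
noncomputable def osc (m : ℕ → ℕ) (j : ℕ) (x : ℝ × ℝ) : ℝ :=
  narrow j x.2 * Real.sin (Real.pi * (m j * x.1)) ^ 2

lemma osc_smooth (m : ℕ → ℕ) (j : ℕ) : ContDiff ℝ ∞ (osc m j) := by
  unfold osc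
  have h1 : ContDiff ℝ ∞ (fun x : ℝ × ℝ => narrow j x.2) :=
    (narrow j).contDiff.comp contDiff_snd
  have h2 : ContDiff ℝ ∞ (fun x : ℝ × ℝ => Real.sin (Real.pi * (m j * x.1)) ^ 2) := by
    fun_prop
  exact h1.mul h2

lemma sin_shift (a : ℝ) (n : ℤ) : Real.sin (a + n * Real.pi) ^ 2 = Real.sin a ^ 2 := by
  rw [Real.sin_add_int_mul_pi, mul_pow]
  have : ((-1 : ℝ) ^ n) ^ 2 = 1 := by
    rw [← zpow_natCast, ← zpow_mul, mul_comm, zpow_mul]
    simp
  rw [this, one_mul]

lemma bdd_osc (m : ℕ → ℕ) (j k : ℕ) : ∃ C, ∀ x, ‖iteratedFDeriv ℝ k (osc m j) x‖ ≤ C := by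
  apply bdd_periodic _ (osc_smooth m j) _ (2 * tt j)
  · intro s t ht
    have h1 := tt_pos j
    have : narrow j t = 0 := by
      apply narrow_eq_zero
      have h2 : |t| ≤ |t - tt j| + |tt j| := by
        have := abs_add_le (t - tt j) (tt j)
        simpa using this
      rw [abs_of_pos h1] at h2
      linarith
    simp [osc, this]
  · intro s t
    simp only [osc]
    congr 1
    have : Real.pi * (m j * (s + 1)) = Real.pi * (m j * s) + ((m j : ℤ) : ℝ) * Real.pi := by
      push_cast; ring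
    rw [this, sin_shift]

lemma osc_nonneg (m : ℕ → ℕ) (j : ℕ) (x : ℝ × ℝ) : 0 ≤ osc m j x := by
  unfold osc
  have := (narrow j).nonneg (x := x.2)
  positivity

/-- The structure function.  Its zero set is `t ≤ 0` together with the lattice points
`(k / m_j, t_j)`, and it is invariant under many shears `s ↦ s + η t`. -/
theorem exists_psi : ∃ (ψ : ℝ × ℝ → ℝ) (m : ℕ → ℕ), ContDiff ℝ ∞ ψ ∧
    (∀ s t, t ≤ 0 → ψ (s, t) = 0) ∧
    (∀ j, j + 1 ≤ m j) ∧
    (∀ s t, 0 < t → ψ (s, t) = 0 → ∃ j, t = tt j ∧ ∃ k : ℤ, s = k / m j) ∧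
    (∀ j (k : ℤ), ψ (k / m j, tt j) = 0) ∧
    (∀ δ : ℝ, ∃ η : ℝ → ℝ, ContDiff ℝ ∞ η ∧ η 0 = δ ∧ ∀ s t, ψ (s + η t, t) = ψ (s, t)) := by
  choose a ha hac using fun j => coeff (fun t => wide j t) (wide j).contDiff (bdd_wide j) j
  have hm : ∀ j, ∃ m : ℕ, j + 1 ≤ m ∧ 1 / (m : ℝ) ≤ a j := by
    intro j
    obtain ⟨n, hn⟩ := exists_nat_gt (1 / a j)
    refine ⟨max (j + 1) n, le_max_left _ _, ?_⟩
    have h1 : (1 / a j) ≤ ((max (j + 1) n : ℕ) : ℝ) := by
      refine hn.le.trans ?_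
      exact_mod_cast le_max_right _ _
    have h2 : (0:ℝ) < ((max (j + 1) n : ℕ) : ℝ) := by
      have : 0 < max (j + 1) n := lt_of_lt_of_le (Nat.succ_pos j) (le_max_left _ _)
      exact_mod_cast this
    rw [div_le_iff₀ h2]
    rw [div_le_iff₀ (ha j)] at h1
    linarith
  choose m hmj hma using hm
  have hmpos : ∀ j, (0:ℝ) < m j := by
    intro j
    have : 0 < m j := lt_of_lt_of_le (Nat.succ_pos j) (hmj j)
    exact_mod_cast this
  choose b hb hbc using fun j => coeff (osc m j) (osc_smooth m j) (bdd_osc m j) j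
  -- the closed set of t's
  have hclosed : IsClosed (Iic (0:ℝ) ∪ insert 0 (range tt)) := by
    refine isClosed_Iic.union ?_
    have : Tendsto tt atTop (𝓝 0) := by
      unfold tt
      exact tendsto_pow_atTop_nhds_zero_of_lt_one (by norm_num) (by norm_num)
    exact this.isCompact_insert_range.isClosed
  obtain ⟨ρ, hρs, hρd, hρr⟩ := (hclosed.isOpen_compl).exists_contDiff_support_eq (n := ⊤)
  have hρ0 : ∀ t, t ∈ Iic (0:ℝ) ∪ insert 0 (range tt) → ρ t = 0 := by
    intro t ht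
    by_contra h
    have : t ∈ ρ.support := h
    rw [hρs] at this
    exact this ht
  have hρnn : ∀ t, 0 ≤ ρ t := fun t => (hρr (mem_range_self t)).1
  have hsum : ∀ x, Summable (fun j => b j * osc m j x) := by
    intro x
    refine Summable.of_norm_bounded (g := fun j => (1 / 2 : ℝ) ^ j)
      (summable_geometric_of_lt_one (by norm_num) (by norm_num)) ?_
    intro j
    have := hbc j (b j) (by rw [abs_of_pos (hb j)]) 0 (Nat.zero_le _) x
    simpa only [norm_iteratedFDeriv_zero] using this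
  have hnn : ∀ x j, 0 ≤ b j * osc m j x := fun x j => mul_nonneg (hb j).le (osc_nonneg m j x)
  refine ⟨fun x => ρ x.2 + ∑' j, b j * osc m j x, m, ?_, ?_, hmj, ?_, ?_, ?_⟩
  · refine ContDiff.add ?_ ?_
    · exact (hρd.of_le (by simp)).comp contDiff_snd
    · exact smooth_sum _ (osc_smooth m) b (fun j k hk x => hbc j (b j) (by rw [abs_of_pos (hb j)]) k hk x)
  · intro s t ht
    have h1 : ρ t = 0 := hρ0 t (Or.inl ht)
    have h2 : ∀ j, b j * osc m j (s, t) = 0 := by
      intro j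
      have : narrow j t = 0 := by
        apply narrow_eq_zero
        have h1 := tt_pos j
        rw [abs_of_neg (by linarith)]
        linarith
      simp [osc, this]
    simp [h1, h2]
  · intro s t ht hψ
    have h1 : 0 ≤ ∑' j, b j * osc m j (s, t) := tsum_nonneg (hnn _)
    have h2 : ρ t = 0 := by
      have := hρnn t
      simp only at hψ
      linarith
    have h3 : ∑' j, b j * osc m j (s, t) = 0 := by
      simp only at hψ
      linarith
    have h4 : t ∈ Iic (0:ℝ) ∪ insert 0 (range tt) := by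
      by_contra hcon
      have : t ∈ ρ.support := by rw [hρs]; exact hcon
      exact this h2
    rcases h4 with h4 | h4 | ⟨j, hj⟩
    · exact absurd ht (not_lt.2 h4)
    · exact absurd ht (by rw [h4]; exact lt_irrefl _)
    · refine ⟨j, hj.symm, ?_⟩
      have h5 : b j * osc m j (s, t) = 0 := by
        by_contra hne
        have hpos : 0 < b j * osc m j (s, t) := lt_of_le_of_ne (hnn _ j) (Ne.symm hne)
        have := (hsum (s, t)).tsum_pos (hnn _) j hpos
        linarith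
      have h6 : osc m j (s, t) = 0 := by
        rcases mul_eq_zero.1 h5 with h | h
        · exact absurd h (hb j).ne'
        · exact h
      simp only [osc, ← hj, narrow_self, one_mul] at h6
      have h7 : Real.sin (Real.pi * (m j * s)) = 0 := by
        exact pow_eq_zero_iff (two_ne_zero) |>.1 h6
      obtain ⟨k, hk⟩ := Real.sin_eq_zero_iff.1 h7
      refine ⟨k, ?_⟩
      rw [eq_div_iff (hmpos j).ne']
      have hpi := Real.pi_pos.ne'
      have : Real.pi * (k - m j * s) = 0 := by linarith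
      rcases mul_eq_zero.1 this with h | h
      · exact absurd h hpi
      · linarith
  · intro j k
    have h1 : ρ (tt j) = 0 := hρ0 _ (Or.inr (Or.inr ⟨j, rfl⟩))
    have h2 : ∀ i, b i * osc m i (k / m j, tt j) = 0 := by
      intro i
      by_cases hij : i = j
      · subst hij
        have : Real.pi * (m i * (k / m i)) = 0 + k * Real.pi := by
          have := (hmpos i).ne'
          field_simp
          ring
        simp only [osc]
        rw [this, sin_shift]
        simp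
      · have hs := sep (t := tt j) hij (by simp; exact tt_pos j)
        have : narrow i (tt j) = 0 := by
          apply narrow_eq_zero
          have := tt_pos i
          linarith
        simp [osc, this]
    simp [h1, h2]
  · intro δ
    set c : ℕ → ℝ := fun j => ⌊m j * δ⌋ / m j - δ with hc
    have hca : ∀ j, |c j| ≤ a j := by
      intro j
      refine le_trans ?_ (hma j)
      have h1 := Int.floor_le (m j * δ)
      have h2 := Int.lt_floor_add_one (m j * δ)
      have h3 := hmpos j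
      have h4 : c j = (⌊m j * δ⌋ - m j * δ) / m j := by
        rw [hc]; field_simp
      rw [h4, abs_div, abs_of_pos h3]
      gcongr
      rw [abs_le]
      constructor <;> linarith
    refine ⟨fun t => δ + ∑' j, c j * wide j t, ?_, ?_, ?_⟩
    · refine contDiff_const.add ?_
      exact smooth_sum (fun j t => wide j t) (fun j => (wide j).contDiff) c
        (fun j k hk x => hac j (c j) (hca j) k hk x)
    · have : ∀ j, c j * wide j 0 = 0 := by
        intro j
        have h1 := tt_pos j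
        rw [wide_eq_zero, mul_zero]
        rw [abs_of_neg (by linarith)]
        linarith
      simp [this]
    · intro s t
      have key : ∀ j, osc m j (s + (δ + ∑' j, c j * wide j t), t) = osc m j (s, t) := by
        intro j
        by_cases hj : |t - tt j| < tt j / 8
        · have h1 : ∑' i, c i * wide i t = c j * wide j t := by
            apply tsum_eq_single
            intro i hij
            rw [wide_eq_zero, mul_zero]
            exact sep hij (by have := tt_pos j; linarith)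
          have h2 : wide j t = 1 := wide_eq_one hj.le
          simp only [osc]
          rw [h1, h2, mul_one]
          congr 1
          have h3 : Real.pi * (m j * (s + (δ + c j))) =
              Real.pi * (m j * s) + (⌊m j * δ⌋ : ℝ) * Real.pi := by
            have := (hmpos j).ne'
            rw [hc]
            field_simp
            ring
          rw [h3, sin_shift]
        · have : narrow j t = 0 := narrow_eq_zero (not_lt.1 hj)
          simp [osc, this]
      simp only [key]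

/-! ### general lemmas -/

section general
variable {n r : ℕ}

lemma IsCRDiffeo.differentiableAt {S : CRStructure n r} {U V : Set (Fin n → ℝ)}
    {h g : (Fin n → ℝ) → (Fin n → ℝ)} (H : IsCRDiffeo S U V h g) {x} (hx : x ∈ U) :
    DifferentiableAt ℝ h x :=
  (H.smooth.contDiffAt (H.openU.mem_nhds hx)).differentiableAt (by simp)

lemma IsCRDiffeo.differentiableAt' {S : CRStructure n r} {U V : Set (Fin n → ℝ)}
    {h g : (Fin n → ℝ) → (Fin n → ℝ)} (H : IsCRDiffeo S U V h g) {y} (hy : y ∈ V) :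
    DifferentiableAt ℝ g y :=
  (H.smooth'.contDiffAt (H.openV.mem_nhds hy)).differentiableAt (by simp)

lemma IsCRDiffeo.fderiv_comp {S : CRStructure n r} {U V : Set (Fin n → ℝ)}
    {h g : (Fin n → ℝ) → (Fin n → ℝ)} (H : IsCRDiffeo S U V h g) {x} (hx : x ∈ U)
    (v : Fin n → ℝ) : fderiv ℝ g (h x) (fderiv ℝ h x v) = v := by
  have h1 : (fun y => g (h y)) =ᶠ[𝓝 x] (fun y => y) := by
    filter_upwards [H.openU.mem_nhds hx] with y hy using H.left_inv y hy
  have h2 : HasFDerivAt (fun y => g (h y)) ((fderiv ℝ g (h x)).comp (fderiv ℝ h x)) x :=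
    (H.differentiableAt' (H.mapsTo x hx)).hasFDerivAt.comp x (H.differentiableAt hx).hasFDerivAt
  have h3 : HasFDerivAt (fun y : Fin n → ℝ => y) (ContinuousLinearMap.id ℝ (Fin n → ℝ)) x :=
    hasFDerivAt_id x
  have h4 := (h2.congr_of_eventuallyEq h1.symm).unique h3
  have := congrArg (fun L => L v) h4
  simpa using this

lemma push_re (h : (Fin n → ℝ) → (Fin n → ℝ)) (x : Fin n → ℝ) (v : Fin n → ℂ) :
    (fun j => (push h x v j).re) = fderiv ℝ h x (fun j => (v j).re) := by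
  funext j; simp [push]

lemma push_im (h : (Fin n → ℝ) → (Fin n → ℝ)) (x : Fin n → ℝ) (v : Fin n → ℂ) :
    (fun j => (push h x v j).im) = fderiv ℝ h x (fun j => (v j).im) := by
  funext j; simp [push]

lemma IsCRDiffeo.push_comp {S : CRStructure n r} {U V : Set (Fin n → ℝ)}
    {h g : (Fin n → ℝ) → (Fin n → ℝ)} (H : IsCRDiffeo S U V h g) {x} (hx : x ∈ U)
    (v : Fin n → ℂ) : push g (h x) (push h x v) = v := by
  funext i
  unfold push
  have h1 := push_re h x v
  have h2 := push_im h x v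
  unfold push at h1 h2
  rw [h1, h2, H.fderiv_comp hx, H.fderiv_comp hx]
  rw [mul_comm]
  exact Complex.re_add_im (v i)

lemma IsCRDiffeo.symm {S : CRStructure n r} {U V : Set (Fin n → ℝ)}
    {h g : (Fin n → ℝ) → (Fin n → ℝ)} (H : IsCRDiffeo S U V h g) : IsCRDiffeo S V U g h := by
  refine ⟨H.openV, H.openU, H.mapsTo', H.mapsTo, H.right_inv, H.left_inv, H.smooth', H.smooth, ?_⟩
  intro y hy
  have hx := H.mapsTo' y hy
  have h1 := H.cr (g y) hx
  rw [H.right_inv y hy] at h1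
  rw [← h1, ← Set.image_comp]
  have h2 : ∀ v, (push g y ∘ push h (g y)) v = v := by
    intro v
    have := H.push_comp hx v
    rw [H.right_inv y hy] at this
    exact this
  have h3 : (push g y ∘ push h (g y)) = id := by
    funext v; exact h2 v
  rw [h3, Set.image_id]

/-- commutation of two derivations -/
lemma comm_lemma {E F : Type*} [NormedAddCommGroup E] [NormedSpace ℝ E] [NormedAddCommGroup F]
    [NormedSpace ℝ F] (f : E → F) (A B : E → E) (x : E) (hf : ContDiffAt ℝ ∞ f x)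
    (hA : DifferentiableAt ℝ A x) (hB : DifferentiableAt ℝ B x) :
    fderiv ℝ (fun y => fderiv ℝ f y (B y)) x (A x) - fderiv ℝ (fun y => fderiv ℝ f y (A y)) x (B x)
      = fderiv ℝ f x (fderiv ℝ B x (A x) - fderiv ℝ A x (B x)) := by
  have hd : DifferentiableAt ℝ (fderiv ℝ f) x := by
    have : ContDiffAt ℝ 1 (fderiv ℝ f) x := hf.fderiv_right (m := 1) (WithTop.coe_le_coe.2 le_top)
    exact this.differentiableAt (by simp)
  have hsymm : IsSymmSndFDerivAt ℝ f x := hf.isSymmSndFDerivAt (by simpa using (WithTop.coe_le_coe.2 le_top : ((2:ℕ∞) : WithTop ℕ∞) ≤ ∞))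
  have h1 : HasFDerivAt (fun y => fderiv ℝ f y (B y))
      ((fderiv ℝ f x).comp (fderiv ℝ B x) + (fderiv ℝ (fderiv ℝ f) x).flip (B x)) x :=
    hd.hasFDerivAt.clm_apply hB.hasFDerivAt
  have h2 : HasFDerivAt (fun y => fderiv ℝ f y (A y))
      ((fderiv ℝ f x).comp (fderiv ℝ A x) + (fderiv ℝ (fderiv ℝ f) x).flip (A x)) x :=
    hd.hasFDerivAt.clm_apply hA.hasFDerivAt
  rw [h1.fderiv, h2.fderiv]
  simp only [_root_.add_apply, ContinuousLinearMap.comp_apply,
    ContinuousLinearMap.flip_apply, map_sub]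
  rw [hsymm.eq (A x) (B x)]
  abel

end general


/-! ### the example -/

section example_

variable (ψ : ℝ × ℝ → ℝ)

/-- the complex vector field `L = ∂_x + i ∂_y + ψ(s,t) (y - i x) ∂_u`, coordinates `(s,t,x,y,u)` -/
noncomputable def LL (x : Fin 5 → ℝ) : Fin 5 → ℂ :=
  ![0, 0, 1, Complex.I, (ψ (x 0, x 1) : ℂ) * ((x 3 : ℂ) - Complex.I * (x 2 : ℂ))]

noncomputable def XX (x : Fin 5 → ℝ) : Fin 5 → ℝ := ![0, 0, 1, 0, ψ (x 0, x 1) * x 3]
noncomputable def YY (x : Fin 5 → ℝ) : Fin 5 → ℝ := ![0, 0, 0, 1, - (ψ (x 0, x 1) * x 2)]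

lemma LL_re (x : Fin 5 → ℝ) : (fun i => (LL ψ x i).re) = XX ψ x := by
  funext i; fin_cases i <;> simp [LL, XX]

lemma LL_im (x : Fin 5 → ℝ) : (fun i => (LL ψ x i).im) = YY ψ x := by
  funext i; fin_cases i <;> simp [LL, YY]

variable {ψ}

lemma LL_smooth (hψ : ContDiff ℝ ∞ ψ) : ContDiff ℝ ∞ (LL ψ) := by
  rw [contDiff_pi]
  intro i
  have h0 : ∀ j : Fin 5, ContDiff ℝ ∞ (fun x : Fin 5 → ℝ => x j) := fun j => contDiff_apply ℝ ℝ j
  have h1 : ContDiff ℝ ∞ (fun x : Fin 5 → ℝ => ψ (x 0, x 1)) := hψ.comp ((h0 0).prodMk (h0 1))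
  have hof : ContDiff ℝ ∞ (fun r : ℝ => (r : ℂ)) := Complex.ofRealCLM.contDiff
  fin_cases i
  · simpa [LL] using contDiff_const
  · simpa [LL] using contDiff_const
  · simpa [LL] using contDiff_const
  · simpa [LL] using contDiff_const
  · simp only [LL]
    exact (hof.comp h1).mul ((hof.comp (h0 3)).sub (contDiff_const.mul (hof.comp (h0 2))))

lemma XX_smooth (hψ : ContDiff ℝ ∞ ψ) : ContDiff ℝ ∞ (XX ψ) := by
  rw [contDiff_pi]
  intro i
  have h0 : ∀ j : Fin 5, ContDiff ℝ ∞ (fun x : Fin 5 → ℝ => x j) := fun j => contDiff_apply ℝ ℝ j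
  have h1 : ContDiff ℝ ∞ (fun x : Fin 5 → ℝ => ψ (x 0, x 1)) := hψ.comp ((h0 0).prodMk (h0 1))
  fin_cases i
  · simpa [XX] using contDiff_const
  · simpa [XX] using contDiff_const
  · simpa [XX] using contDiff_const
  · simpa [XX] using contDiff_const
  · simp only [XX]
    exact h1.mul (h0 3)

lemma YY_smooth (hψ : ContDiff ℝ ∞ ψ) : ContDiff ℝ ∞ (YY ψ) := by
  rw [contDiff_pi]
  intro i
  have h0 : ∀ j : Fin 5, ContDiff ℝ ∞ (fun x : Fin 5 → ℝ => x j) := fun j => contDiff_apply ℝ ℝ j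
  have h1 : ContDiff ℝ ∞ (fun x : Fin 5 → ℝ => ψ (x 0, x 1)) := hψ.comp ((h0 0).prodMk (h0 1))
  fin_cases i
  · simpa [YY] using contDiff_const
  · simpa [YY] using contDiff_const
  · simpa [YY] using contDiff_const
  · simpa [YY] using contDiff_const
  · simp only [YY]
    exact (h1.mul (h0 2)).neg

noncomputable def SS (hψ : ContDiff ℝ ∞ ψ) : CRStructure 5 1 where
  frame := fun _ => LL ψ
  smooth := fun _ => LL_smooth hψ
  indep := by
    intro x
    rw [Fintype.linearIndependent_iff]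
    intro g hg
    have h2 := congrFun hg 2
    have h3 := congrFun hg 3
    simp [LL] at h2 h3
    have hI : Complex.I ≠ 0 := Complex.I_ne_zero
    have h4 : g (Sum.inl 0) = g (Sum.inr 0) := by
      have : (g (Sum.inl 0) - g (Sum.inr 0)) * Complex.I = 0 := by
        linear_combination h3
      rcases mul_eq_zero.1 this with h | h
      · exact sub_eq_zero.1 h
      · exact absurd h hI
    have h5 : g (Sum.inl 0) = 0 := by
      rw [← h4] at h2
      have : 2 * g (Sum.inl 0) = 0 := by linear_combination h2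
      simpa using this
    intro i
    rcases i with i | i
    · fin_cases i; exact h5
    · fin_cases i; exact h4 ▸ h5
  invol := by
    intro i j x
    simp [cbracket]

lemma SS_H (hψ : ContDiff ℝ ∞ ψ) (x : Fin 5 → ℝ) : (SS hψ).H x = Submodule.span ℂ {LL ψ x} := by
  simp [CRStructure.H, SS]


lemma real_eqs (hψ : ContDiff ℝ ∞ ψ) {U V : Set (Fin 5 → ℝ)} {h g : (Fin 5 → ℝ) → (Fin 5 → ℝ)}
    (H : IsCRDiffeo (SS hψ) U V h g) {x : Fin 5 → ℝ} (hx : x ∈ U) :
    fderiv ℝ h x (XX ψ x) = ![0, 0, fderiv ℝ h x (XX ψ x) 2, - fderiv ℝ h x (YY ψ x) 2,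
      ψ (h x 0, h x 1) * (fderiv ℝ h x (XX ψ x) 2 * h x 3 + fderiv ℝ h x (YY ψ x) 2 * h x 2)] ∧
    fderiv ℝ h x (YY ψ x) = ![0, 0, fderiv ℝ h x (YY ψ x) 2, fderiv ℝ h x (XX ψ x) 2,
      ψ (h x 0, h x 1) * (fderiv ℝ h x (YY ψ x) 2 * h x 3 - fderiv ℝ h x (XX ψ x) 2 * h x 2)] := by
  have h1 : push h x (LL ψ x) ∈ (SS hψ).H (h x) := by
    have : push h x (LL ψ x) ∈ push h x '' ((SS hψ).H x : Set (Fin 5 → ℂ)) := by
      refine ⟨LL ψ x, ?_, rfl⟩
      rw [SS_H]
      exact Submodule.mem_span_singleton_self _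
    rw [H.cr x hx] at this
    exact this
  rw [SS_H, Submodule.mem_span_singleton] at h1
  obtain ⟨l, hl⟩ := h1
  have hre := push_re h x (LL ψ x)
  have him := push_im h x (LL ψ x)
  rw [LL_re, ← hl] at hre
  rw [LL_im, ← hl] at him
  have e2 : l.re = fderiv ℝ h x (XX ψ x) 2 := by
    rw [← hre]; simp [LL]
  have e2' : l.im = fderiv ℝ h x (YY ψ x) 2 := by
    rw [← him]; simp [LL]
  rw [← e2, ← e2']
  constructor
  · rw [← hre]
    funext j
    fin_cases j <;> simp [LL]
    ring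
  · rw [← him]
    funext j
    fin_cases j <;> simp [LL]
    ring

lemma both_zero {a b : ℝ} (h : a ^ 2 + b ^ 2 = 0) : a = 0 ∧ b = 0 := by
  constructor <;> nlinarith [sq_nonneg a, sq_nonneg b]

lemma levi_zero (hψ : ContDiff ℝ ∞ ψ) {U V : Set (Fin 5 → ℝ)} {h g : (Fin 5 → ℝ) → (Fin 5 → ℝ)}
    (H : IsCRDiffeo (SS hψ) U V h g) {x : Fin 5 → ℝ} (hx : x ∈ U) (h0 : ψ (x 0, x 1) = 0) :
    ψ (h x 0, h x 1) = 0 := by
  have hU : U ∈ 𝓝 x := H.openU.mem_nhds hx
  have hcd : ContDiffAt ℝ ∞ h x := H.smooth.contDiffAt hU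
  have hX := XX_smooth hψ
  have hY := YY_smooth hψ
  have hXd : DifferentiableAt ℝ (XX ψ) x := hX.contDiffAt.differentiableAt (by simp)
  have hYd : DifferentiableAt ℝ (YY ψ) x := hY.contDiffAt.differentiableAt (by simp)
  have hψd : DifferentiableAt ℝ ψ (x 0, x 1) := hψ.contDiffAt.differentiableAt (by simp)
  -- the bracket vanishes at x
  have hproj : ∀ j : Fin 5, HasFDerivAt (fun y : Fin 5 → ℝ => y j)
      (ContinuousLinearMap.proj (R := ℝ) (φ := fun _ : Fin 5 => ℝ) j) x :=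
    fun j => hasFDerivAt_apply j x
  have hψx : HasFDerivAt (fun y : Fin 5 → ℝ => ψ (y 0, y 1))
      ((fderiv ℝ ψ (x 0, x 1)).comp
        ((ContinuousLinearMap.proj (R := ℝ) (φ := fun _ : Fin 5 => ℝ) 0).prod
          (ContinuousLinearMap.proj (R := ℝ) (φ := fun _ : Fin 5 => ℝ) 1))) x :=
    HasFDerivAt.comp (g := ψ) (f := fun y : Fin 5 → ℝ => (y 0, y 1)) x hψd.hasFDerivAt
      ((hproj 0).prodMk (hproj 1))
  have hbr : fderiv ℝ (YY ψ) x (XX ψ x) - fderiv ℝ (XX ψ) x (YY ψ x) = 0 := by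
    have hYc : ∀ j, fderiv ℝ (YY ψ) x (XX ψ x) j = fderiv ℝ (fun y => YY ψ y j) x (XX ψ x) := by
      intro j
      have := (hasFDerivAt_pi'.1 hYd.hasFDerivAt j).fderiv
      rw [this]; rfl
    have hXc : ∀ j, fderiv ℝ (XX ψ) x (YY ψ x) j = fderiv ℝ (fun y => XX ψ y j) x (YY ψ x) := by
      intro j
      have := (hasFDerivAt_pi'.1 hXd.hasFDerivAt j).fderiv
      rw [this]; rfl
    funext j
    rw [Pi.sub_apply, hYc, hXc]
    fin_cases j
    · simp [YY, XX]
    · simp [YY, XX]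
    · simp [YY, XX]
    · simp [YY, XX]
    · have e1 : (fun y => YY ψ y 4) = fun y => - (ψ (y 0, y 1) * y 2) := by
        funext y; simp [YY]
      have e2 : (fun y => XX ψ y 4) = fun y => ψ (y 0, y 1) * y 3 := by
        funext y; simp [XX]
      have d1 := ((hψx.fun_mul (hproj 2)).fun_neg).fderiv
      have d2 := (hψx.fun_mul (hproj 3)).fderiv
      simp only [Fin.reduceFinMk]
      have hz : (fderiv ℝ ψ (x 0, x 1)) ((0 : ℝ), (0 : ℝ)) = 0 := map_zero _
      rw [e1, e2, d1, d2]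
      simp [XX, YY, h0, hz]
  have hcomm := comm_lemma h (XX ψ) (YY ψ) x hcd hXd hYd
  rw [hbr, map_zero, sub_eq_zero] at hcomm
  -- differentiability of the iterated derivatives
  have hfd : ContDiffAt ℝ ∞ (fderiv ℝ h) x := hcd.fderiv_right (m := ∞) (by simp)
  have hDX : ContDiffAt ℝ ∞ (fun y => fderiv ℝ h y (XX ψ y)) x := hfd.clm_apply hX.contDiffAt
  have hDY : ContDiffAt ℝ ∞ (fun y => fderiv ℝ h y (YY ψ y)) x := hfd.clm_apply hY.contDiffAt
  have hDXd : DifferentiableAt ℝ (fun y => fderiv ℝ h y (XX ψ y)) x :=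
    hDX.differentiableAt (by simp)
  have hDYd : DifferentiableAt ℝ (fun y => fderiv ℝ h y (YY ψ y)) x :=
    hDY.differentiableAt (by simp)
  -- component functions
  set a : (Fin 5 → ℝ) → ℝ := fun y => fderiv ℝ h y (XX ψ y) 2 with ha
  set b : (Fin 5 → ℝ) → ℝ := fun y => fderiv ℝ h y (YY ψ y) 2 with hb
  have hA : HasFDerivAt a ((ContinuousLinearMap.proj (R := ℝ) (φ := fun _ : Fin 5 => ℝ) 2).comp
      (fderiv ℝ (fun y => fderiv ℝ h y (XX ψ y)) x)) x := hasFDerivAt_pi'.1 hDXd.hasFDerivAt 2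
  have hB : HasFDerivAt b ((ContinuousLinearMap.proj (R := ℝ) (φ := fun _ : Fin 5 => ℝ) 2).comp
      (fderiv ℝ (fun y => fderiv ℝ h y (YY ψ y)) x)) x := hasFDerivAt_pi'.1 hDYd.hasFDerivAt 2
  have hhj : ∀ j : Fin 5, HasFDerivAt (fun y => h y j)
      ((ContinuousLinearMap.proj (R := ℝ) (φ := fun _ : Fin 5 => ℝ) j).comp (fderiv ℝ h x)) x :=
    fun j => hasFDerivAt_pi'.1 (H.differentiableAt hx).hasFDerivAt j
  have hX4 : HasFDerivAt (fun y => fderiv ℝ h y (XX ψ y) 4)
      ((ContinuousLinearMap.proj (R := ℝ) (φ := fun _ : Fin 5 => ℝ) 4).comp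
      (fderiv ℝ (fun y => fderiv ℝ h y (XX ψ y)) x)) x := hasFDerivAt_pi'.1 hDXd.hasFDerivAt 4
  have hY4 : HasFDerivAt (fun y => fderiv ℝ h y (YY ψ y) 4)
      ((ContinuousLinearMap.proj (R := ℝ) (φ := fun _ : Fin 5 => ℝ) 4).comp
      (fderiv ℝ (fun y => fderiv ℝ h y (YY ψ y)) x)) x := hasFDerivAt_pi'.1 hDYd.hasFDerivAt 4
  have hX3 : HasFDerivAt (fun y => fderiv ℝ h y (XX ψ y) 3)
      ((ContinuousLinearMap.proj (R := ℝ) (φ := fun _ : Fin 5 => ℝ) 3).comp
      (fderiv ℝ (fun y => fderiv ℝ h y (XX ψ y)) x)) x := hasFDerivAt_pi'.1 hDXd.hasFDerivAt 3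
  have hY3 : HasFDerivAt (fun y => fderiv ℝ h y (YY ψ y) 3)
      ((ContinuousLinearMap.proj (R := ℝ) (φ := fun _ : Fin 5 => ℝ) 3).comp
      (fderiv ℝ (fun y => fderiv ℝ h y (YY ψ y)) x)) x := hasFDerivAt_pi'.1 hDYd.hasFDerivAt 3
  have hψh : HasFDerivAt (fun y : Fin 5 → ℝ => ψ (h y 0, h y 1))
      ((fderiv ℝ ψ (h x 0, h x 1)).comp
        (((ContinuousLinearMap.proj (R := ℝ) (φ := fun _ : Fin 5 => ℝ) 0).comp (fderiv ℝ h x)).prod
          ((ContinuousLinearMap.proj (R := ℝ) (φ := fun _ : Fin 5 => ℝ) 1).comp (fderiv ℝ h x)))) x :=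
    HasFDerivAt.comp (g := ψ) (f := fun y : Fin 5 → ℝ => (h y 0, h y 1)) x
      (hψ.contDiffAt.differentiableAt (by simp)).hasFDerivAt ((hhj 0).prodMk (hhj 1))
  -- eventual identities
  have ev : ∀ᶠ y in 𝓝 x, y ∈ U := hU
  have evX3 : (fun y => fderiv ℝ h y (XX ψ y) 3) =ᶠ[𝓝 x] fun y => - b y := by
    filter_upwards [ev] with y hy
    have := congrFun (real_eqs hψ H hy).1 3
    simpa using this
  have evY3 : (fun y => fderiv ℝ h y (YY ψ y) 3) =ᶠ[𝓝 x] fun y => a y := by
    filter_upwards [ev] with y hy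
    have := congrFun (real_eqs hψ H hy).2 3
    simpa using this
  have evX4 : (fun y => fderiv ℝ h y (XX ψ y) 4) =ᶠ[𝓝 x]
      fun y => ψ (h y 0, h y 1) * (a y * h y 3 + b y * h y 2) := by
    filter_upwards [ev] with y hy
    have := congrFun (real_eqs hψ H hy).1 4
    simpa using this
  have evY4 : (fun y => fderiv ℝ h y (YY ψ y) 4) =ᶠ[𝓝 x]
      fun y => ψ (h y 0, h y 1) * (b y * h y 3 - a y * h y 2) := by
    filter_upwards [ev] with y hy
    have := congrFun (real_eqs hψ H hy).2 4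
    simpa using this
  have u1 := (hX3.congr_of_eventuallyEq evX3.symm).unique hB.fun_neg
  have u2 := (hY3.congr_of_eventuallyEq evY3.symm).unique hA
  have u3 := (hX4.congr_of_eventuallyEq evX4.symm).unique
    (hψh.fun_mul ((hA.fun_mul (hhj 3)).fun_add (hB.fun_mul (hhj 2))))
  have u4 := (hY4.congr_of_eventuallyEq evY4.symm).unique
    (hψh.fun_mul ((hB.fun_mul (hhj 3)).fun_sub (hA.fun_mul (hhj 2))))
  obtain ⟨rX, rY⟩ := real_eqs hψ H hx
  have X0 : fderiv ℝ h x (XX ψ x) 0 = 0 := by simpa using congrFun rX 0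
  have X1 : fderiv ℝ h x (XX ψ x) 1 = 0 := by simpa using congrFun rX 1
  have X3 : fderiv ℝ h x (XX ψ x) 3 = - b x := by simpa using congrFun rX 3
  have Y0 : fderiv ℝ h x (YY ψ x) 0 = 0 := by simpa using congrFun rY 0
  have Y1 : fderiv ℝ h x (YY ψ x) 1 = 0 := by simpa using congrFun rY 1
  have Y3 : fderiv ℝ h x (YY ψ x) 3 = a x := by simpa using congrFun rY 3
  have X2 : fderiv ℝ h x (XX ψ x) 2 = a x := rfl
  have Y2 : fderiv ℝ h x (YY ψ x) 2 = b x := rfl
  have hz : (fderiv ℝ ψ (h x 0, h x 1)) ((0 : ℝ), (0 : ℝ)) = 0 := map_zero _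
  have v1 := congrArg (fun L => L (YY ψ x)) u1
  have v2 := congrArg (fun L => L (XX ψ x)) u2
  have v3 := congrArg (fun L => L (YY ψ x)) u3
  have v4 := congrArg (fun L => L (XX ψ x)) u4
  simp [X0, X1, X2, X3, Y0, Y1, Y2, Y3, hz] at v1 v2 v3 v4
  have c2 := congrFun hcomm 2
  have c3 := congrFun hcomm 3
  have c4 := congrFun hcomm 4
  have key : ψ (h x 0, h x 1) * (a x ^ 2 + b x ^ 2) = 0 := by
    rw [v1, v2] at c3
    rw [v3, v4] at c4
    linear_combination (-1/2) * c4 + (1/2) * ψ (h x 0, h x 1) * h x 3 * c2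
      - (1/2) * ψ (h x 0, h x 1) * h x 2 * c3
  rcases mul_eq_zero.1 key with hk | hk
  · exact hk
  · exfalso
    obtain ⟨ha0, hb0⟩ := both_zero hk
    have hzero : fderiv ℝ h x (XX ψ x) = 0 := by
      rw [rX]
      funext j
      fin_cases j <;> simp [X2, Y2, ha0, hb0]
    have := H.fderiv_comp hx (XX ψ x)
    rw [hzero, map_zero] at this
    have := congrFun this 2
    simp [XX] at this

lemma levi_iff (hψ : ContDiff ℝ ∞ ψ) {U V : Set (Fin 5 → ℝ)} {h g : (Fin 5 → ℝ) → (Fin 5 → ℝ)}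
    (H : IsCRDiffeo (SS hψ) U V h g) {x : Fin 5 → ℝ} (hx : x ∈ U) :
    ψ (h x 0, h x 1) = 0 ↔ ψ (x 0, x 1) = 0 := by
  constructor
  · intro h0
    have := levi_zero hψ H.symm (H.mapsTo x hx) h0
    rwa [H.left_inv x hx] at this
  · exact levi_zero hψ H hx


lemma push_smul {n : ℕ} (h : (Fin n → ℝ) → (Fin n → ℝ)) (x : Fin n → ℝ) (c : ℂ) (v : Fin n → ℂ) :
    push h x (c • v) = c • push h x v := by
  have h1 : (fun j => ((c • v) j).re) = c.re • (fun j => (v j).re) - c.im • (fun j => (v j).im) := by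
    funext j; simp
  have h2 : (fun j => ((c • v) j).im) = c.re • (fun j => (v j).im) + c.im • (fun j => (v j).re) := by
    funext j; simp
  funext i
  unfold push
  rw [h1, h2]
  apply Complex.ext
  · simp
  · simp

variable (ψ) in
noncomputable def Phi (η : ℝ → ℝ) (a b c : ℝ) (x : Fin 5 → ℝ) : Fin 5 → ℝ :=
  ![x 0 + η (x 1), x 1, x 2 + a, x 3 + b, x 4 + c + ψ (x 0, x 1) * (b * x 2 - a * x 3)]

variable (ψ) in
noncomputable def Psi (η : ℝ → ℝ) (a b c : ℝ) (x : Fin 5 → ℝ) : Fin 5 → ℝ :=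
  ![x 0 - η (x 1), x 1, x 2 - a, x 3 - b, x 4 - c - ψ (x 0, x 1) * (b * x 2 - a * x 3)]

lemma Phi_smooth (hψ : ContDiff ℝ ∞ ψ) {η : ℝ → ℝ} (hη : ContDiff ℝ ∞ η) (a b c : ℝ) :
    ContDiff ℝ ∞ (Phi ψ η a b c) := by
  rw [contDiff_pi]
  intro i
  have h0 : ∀ j : Fin 5, ContDiff ℝ ∞ (fun x : Fin 5 → ℝ => x j) := fun j => contDiff_apply ℝ ℝ j
  have h1 : ContDiff ℝ ∞ (fun x : Fin 5 → ℝ => ψ (x 0, x 1)) := hψ.comp ((h0 0).prodMk (h0 1))
  fin_cases i
  · simp only [Phi]; exact (h0 0).add (hη.comp (h0 1))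
  · simp only [Phi]; exact h0 1
  · simp only [Phi]; exact (h0 2).add contDiff_const
  · simp only [Phi]; exact (h0 3).add contDiff_const
  · simp only [Phi]
    exact ((h0 4).add contDiff_const).add
      (h1.mul ((contDiff_const.mul (h0 2)).sub (contDiff_const.mul (h0 3))))

lemma Psi_smooth (hψ : ContDiff ℝ ∞ ψ) {η : ℝ → ℝ} (hη : ContDiff ℝ ∞ η) (a b c : ℝ) :
    ContDiff ℝ ∞ (Psi ψ η a b c) := by
  rw [contDiff_pi]
  intro i
  have h0 : ∀ j : Fin 5, ContDiff ℝ ∞ (fun x : Fin 5 → ℝ => x j) := fun j => contDiff_apply ℝ ℝ j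
  have h1 : ContDiff ℝ ∞ (fun x : Fin 5 → ℝ => ψ (x 0, x 1)) := hψ.comp ((h0 0).prodMk (h0 1))
  fin_cases i
  · simp only [Psi]; exact (h0 0).sub (hη.comp (h0 1))
  · simp only [Psi]; exact h0 1
  · simp only [Psi]; exact (h0 2).sub contDiff_const
  · simp only [Psi]; exact (h0 3).sub contDiff_const
  · simp only [Psi]
    exact ((h0 4).sub contDiff_const).sub
      (h1.mul ((contDiff_const.mul (h0 2)).sub (contDiff_const.mul (h0 3))))

lemma fderiv_of_affine {n : ℕ} {f : (Fin n → ℝ) → (Fin n → ℝ)} {x v w : Fin n → ℝ}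
    (hf : DifferentiableAt ℝ f x) (h : ∀ τ : ℝ, f (x + τ • v) = f x + τ • w) :
    fderiv ℝ f x v = w := by
  have h1 : HasDerivAt (fun τ : ℝ => x + τ • v) v 0 := by
    simpa using ((hasDerivAt_id (0:ℝ)).smul_const v).const_add x
  have h2 : HasFDerivAt f (fderiv ℝ f x) (x + (0:ℝ) • v) := by simpa using hf.hasFDerivAt
  have h3 : HasDerivAt (fun τ : ℝ => f (x + τ • v)) (fderiv ℝ f x v) 0 :=
    h2.comp_hasDerivAt (0:ℝ) h1
  have h4 : HasDerivAt (fun τ : ℝ => f x + τ • w) w 0 := by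
    simpa using ((hasDerivAt_id (0:ℝ)).smul_const w).const_add (f x)
  have h5 : (fun τ : ℝ => f (x + τ • v)) = fun τ : ℝ => f x + τ • w := funext h
  rw [h5] at h3
  exact h3.unique h4

lemma Phi_isCR (hψ : ContDiff ℝ ∞ ψ) {η : ℝ → ℝ} (hη : ContDiff ℝ ∞ η)
    (hinv : ∀ s t, ψ (s + η t, t) = ψ (s, t)) (a b c : ℝ) :
    IsCRDiffeo (SS hψ) univ univ (Phi ψ η a b c) (Psi ψ η a b c) := by
  have hinv' : ∀ s t, ψ (s - η t, t) = ψ (s, t) := by
    intro s t
    have := hinv (s - η t) t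
    rw [sub_add_cancel] at this
    exact this.symm
  refine ⟨isOpen_univ, isOpen_univ, fun _ _ => mem_univ _, fun _ _ => mem_univ _, ?_, ?_,
    (Phi_smooth hψ hη a b c).contDiffOn, (Psi_smooth hψ hη a b c).contDiffOn, ?_⟩
  · intro x _
    funext i
    fin_cases i <;> simp [Phi, Psi, hinv]
    ring
  · intro x _
    funext i
    fin_cases i <;> simp [Phi, Psi, hinv']
    ring
  · intro x _
    have hd : DifferentiableAt ℝ (Phi ψ η a b c) x :=
      (Phi_smooth hψ hη a b c).contDiffAt.differentiableAt (by simp)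
    have hX : fderiv ℝ (Phi ψ η a b c) x (XX ψ x) = XX ψ (Phi ψ η a b c x) := by
      apply fderiv_of_affine hd
      intro τ
      funext i
      fin_cases i <;> simp [Phi, XX, hinv] <;> ring
    have hY : fderiv ℝ (Phi ψ η a b c) x (YY ψ x) = YY ψ (Phi ψ η a b c x) := by
      apply fderiv_of_affine hd
      intro τ
      funext i
      fin_cases i <;> simp [Phi, YY, hinv] <;> ring
    have hL : push (Phi ψ η a b c) x (LL ψ x) = LL ψ (Phi ψ η a b c x) := by
      funext i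
      have e1 := congrFun (push_re (Phi ψ η a b c) x (LL ψ x)) i
      have e2 := congrFun (push_im (Phi ψ η a b c) x (LL ψ x)) i
      rw [LL_re, hX, ← LL_re] at e1
      rw [LL_im, hY, ← LL_im] at e2
      exact Complex.ext e1 e2
    rw [SS_H, SS_H]
    ext w
    constructor
    · rintro ⟨v, hv, rfl⟩
      obtain ⟨l, rfl⟩ := Submodule.mem_span_singleton.1 hv
      rw [push_smul, hL]
      exact Submodule.mem_span_singleton.2 ⟨l, rfl⟩
    · intro hw
      obtain ⟨l, rfl⟩ := Submodule.mem_span_singleton.1 hw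
      refine ⟨l • LL ψ x, Submodule.mem_span_singleton.2 ⟨l, rfl⟩, ?_⟩
      rw [push_smul, hL]


/-! ### the orbit of the origin -/

lemma tt_tendsto : Tendsto tt atTop (𝓝 0) := by
  unfold tt
  exact tendsto_pow_atTop_nhds_zero_of_lt_one (by norm_num) (by norm_num)

lemma not_tt (j i : ℕ) : (7 / 8 : ℝ) * tt j ≠ tt i := by
  intro h
  have hj := tt_pos j
  by_cases hij : i = j
  · subst hij; linarith
  · have h1 : |(7 / 8 : ℝ) * tt j - tt j| < tt j / 4 := by
      rw [abs_lt]; constructor <;> linarith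
    have h2 := sep hij h1
    have h3 := tt_pos i
    rw [h] at h2
    simp at h2
    linarith

lemma orbit_subset (hψ : ContDiff ℝ ∞ ψ) (hneg : ∀ s t, t ≤ 0 → ψ (s, t) = 0) {m : ℕ → ℕ}
    (hzero : ∀ s t, 0 < t → ψ (s, t) = 0 → ∃ j, t = tt j ∧ ∃ k : ℤ, s = k / m j)
    {q : Fin 5 → ℝ} (hq : q ∈ (SS hψ).orbit 0) : q 1 = 0 := by
  obtain ⟨U, V, h, g, H, hU, rfl⟩ := hq
  have hcont : ContinuousAt h 0 := (H.differentiableAt hU).continuousAt
  have hcontg : ContinuousAt g (h 0) := (H.differentiableAt' (H.mapsTo 0 hU)).continuousAt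
  rcases lt_trichotomy (h 0 1) 0 with hlt | heq | hgt
  · exfalso
    have ev1 : ∀ᶠ x in 𝓝 (0 : Fin 5 → ℝ), h x 1 < 0 := by
      have : ContinuousAt (fun x => h x 1) 0 := (continuous_apply 1).continuousAt.comp hcont
      exact this.eventually (gt_mem_nhds hlt)
    have ev2 : ∀ᶠ x in 𝓝 (0 : Fin 5 → ℝ), x ∈ U := H.openU.mem_nhds hU
    have ht : Tendsto (fun j : ℕ => (![0, (7 / 8 : ℝ) * tt j, 0, 0, 0] : Fin 5 → ℝ)) atTop
        (𝓝 0) := by
      rw [tendsto_pi_nhds]
      intro i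
      fin_cases i
      · simp
      · simpa using tt_tendsto.const_mul (7 / 8 : ℝ)
      · simp
      · simp
      · simp
    obtain ⟨j, hj1, hj2⟩ := (ht.eventually (ev1.and ev2)).exists
    have h0 := hneg (h ![0, (7 / 8 : ℝ) * tt j, 0, 0, 0] 0) _ hj1.le
    rw [levi_iff hψ H hj2] at h0
    simp only [Matrix.cons_val_zero, Matrix.cons_val_one] at h0
    obtain ⟨i, hi, -⟩ := hzero _ _ (by have := tt_pos j; positivity) h0
    exact not_tt j i hi
  · exact heq
  · exfalso
    have ev1 : ∀ᶠ x in 𝓝 (0 : Fin 5 → ℝ), 0 < h x 1 := by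
      have : ContinuousAt (fun x => h x 1) 0 := (continuous_apply 1).continuousAt.comp hcont
      exact this.eventually (lt_mem_nhds hgt)
    have ev2 : ∀ᶠ x in 𝓝 (0 : Fin 5 → ℝ), x ∈ U := H.openU.mem_nhds hU
    have ht : Tendsto (fun j : ℕ => (![0, - tt j, 0, 0, 0] : Fin 5 → ℝ)) atTop (𝓝 0) := by
      rw [tendsto_pi_nhds]
      intro i
      fin_cases i
      · simp
      · simpa using tt_tendsto.neg
      · simp
      · simp
      · simp
    obtain ⟨j, hj1, hj2⟩ := (ht.eventually (ev1.and ev2)).exists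
    set x : Fin 5 → ℝ := ![0, - tt j, 0, 0, 0] with hx
    have hxneg : x 1 < 0 := by simpa [hx] using tt_pos j
    set y : Fin 5 → ℝ := h x with hy
    have hyV : y ∈ V := H.mapsTo x hj2
    have hgy : g y = x := H.left_inv x hj2
    have hcg : ContinuousAt g y := (H.differentiableAt' hyV).continuousAt
    have ev3 : ∀ᶠ z in 𝓝 y, g z 1 < 0 := by
      have h1 : ContinuousAt (fun z => g z 1) y := (continuous_apply 1).continuousAt.comp hcg
      refine h1.eventually (gt_mem_nhds ?_)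
      change g y 1 < 0
      rw [hgy]; exact hxneg
    have ev4 : ∀ᶠ z in 𝓝 y, z ∈ V := H.openV.mem_nhds hyV
    have hyz : ψ (y 0, y 1) = 0 := by
      rw [hy, levi_iff hψ H hj2]
      exact hneg _ _ hxneg.le
    obtain ⟨i, hi, -⟩ := hzero _ _ hj1 hyz
    have hti := tt_pos i
    have ht2 : Tendsto (fun n : ℕ => y + ![0, tt n, 0, 0, 0]) atTop (𝓝 y) := by
      rw [tendsto_pi_nhds]
      intro l
      fin_cases l
      · simp
      · simpa using tt_tendsto.const_add (y 1)
      · simp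
      · simp
      · simp
    have ev5 : ∀ᶠ n in atTop, tt n < tt i / 4 := tt_tendsto.eventually (gt_mem_nhds (by linarith))
    obtain ⟨n, ⟨hn1, hn2⟩, hn3⟩ := ((ht2.eventually (ev3.and ev4)).and ev5).exists
    set z : Fin 5 → ℝ := y + ![0, tt n, 0, 0, 0] with hz
    have hz1 : z 1 = tt i + tt n := by
      change y 1 + tt n = tt i + tt n
      rw [hi]
    have hψz : ψ (z 0, z 1) = 0 := by
      have h1 := hneg (g z 0) _ hn1.le
      rwa [levi_iff hψ H.symm hn2] at h1
    have htn := tt_pos n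
    obtain ⟨l, hl, -⟩ := hzero _ _ (by rw [hz1]; linarith) hψz
    by_cases hli : l = i
    · subst hli
      rw [hz1] at hl
      linarith
    · have h1 : |z 1 - tt i| < tt i / 4 := by
        rw [hz1]; simp; rw [abs_of_pos htn]; exact hn3
      have h2 := sep hli h1
      rw [hl] at h2
      have h3 := tt_pos l
      simp at h2
      linarith

lemma subset_orbit (hψ : ContDiff ℝ ∞ ψ)
    (hsh : ∀ δ : ℝ, ∃ η : ℝ → ℝ, ContDiff ℝ ∞ η ∧ η 0 = δ ∧ ∀ s t, ψ (s + η t, t) = ψ (s, t))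
    {q : Fin 5 → ℝ} (hq : q 1 = 0) : q ∈ (SS hψ).orbit 0 := by
  obtain ⟨η, hη, hη0, hinv⟩ := hsh (q 0)
  refine ⟨univ, univ, _, _, Phi_isCR hψ hη hinv (q 2) (q 3) (q 4), mem_univ _, ?_⟩
  funext i
  fin_cases i <;> simp [Phi, hη0, hq]

/-! ### infinitesimal automorphisms -/

lemma inf_zero (hψ : ContDiff ℝ ∞ ψ) {m : ℕ → ℕ} (hm : ∀ j, j + 1 ≤ m j)
    (hzero : ∀ s t, 0 < t → ψ (s, t) = 0 → ∃ j, t = tt j ∧ ∃ k : ℤ, s = k / m j)
    (hlat : ∀ j (k : ℤ), ψ (k / m j, tt j) = 0)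
    {q : Fin 5 → ℝ} (hq : q 1 = 0) {X : (Fin 5 → ℝ) → (Fin 5 → ℝ)}
    (hX : (SS hψ).IsInfinitesimalAut q X) : X q 0 = 0 := by
  obtain ⟨W, W', hW, hW', hqW', hsub, hXs, ε, F, hε, hF0, hF, hFcr⟩ := hX
  have hmpos : ∀ j, (0:ℝ) < m j := by
    intro j
    have : 0 < m j := lt_of_lt_of_le (Nat.succ_pos j) (hm j)
    exact_mod_cast this
  set x : ℕ → Fin 5 → ℝ := fun j => ![(⌊m j * q 0⌋ : ℝ) / m j, tt j, q 2, q 3, q 4] with hx
  have hlim : Tendsto x atTop (𝓝 q) := by
    rw [tendsto_pi_nhds]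
    intro i
    fin_cases i
    · change Tendsto (fun j => (⌊(m j : ℝ) * q 0⌋ : ℝ) / m j) atTop (𝓝 (q 0))
      have h1 : Tendsto (fun j : ℕ => q 0 - 1 / ((j : ℝ) + 1)) atTop (𝓝 (q 0)) := by
        simpa using tendsto_one_div_add_atTop_nhds_zero_nat.const_sub (q 0)
      refine tendsto_of_tendsto_of_tendsto_of_le_of_le h1 tendsto_const_nhds ?_ ?_
      · intro j
        simp only
        have h2 := Int.lt_floor_add_one ((m j : ℝ) * q 0)
        have h3 := hmpos j
        have h4 : ((j : ℝ) + 1) ≤ m j := by exact_mod_cast hm j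
        have h5 : 1 / (m j : ℝ) ≤ 1 / ((j : ℝ) + 1) :=
          one_div_le_one_div_of_le (by positivity) h4
        have h6 : q 0 - 1 / (m j : ℝ) ≤ (⌊m j * q 0⌋ : ℝ) / m j := by
          rw [le_div_iff₀ h3, sub_mul, one_div_mul_cancel h3.ne']
          linarith
        linarith
      · intro j
        simp only
        rw [div_le_iff₀ (hmpos j), mul_comm]
        exact Int.floor_le _
    · simpa [hx, hq] using tt_tendsto
    · simp [hx]
    · simp [hx]
    · simp [hx]
  have hXc : ContinuousAt X q :=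
    (hXs.contDiffAt (hW.mem_nhds (hsub hqW'))).continuousAt
  have hlimX : Tendsto (fun j => X (x j) 0) atTop (𝓝 (X q 0)) :=
    ((continuous_apply 0).continuousAt.comp hXc).tendsto.comp hlim
  have hev : ∀ᶠ j in atTop, X (x j) 0 = 0 := by
    filter_upwards [hlim.eventually (hW'.mem_nhds hqW')] with j hj
    have hψ0 : ψ (x j 0, x j 1) = 0 := by
      simpa [hx] using hlat j ⌊m j * q 0⌋
    obtain ⟨-, hder⟩ := hF 0 (by simpa using hε) (x j) hj
    rw [hF0 _ hj] at hder
    have hder0 : HasDerivAt (fun σ => F σ (x j) 0) (X (x j) 0) 0 := (hasDerivAt_pi.1 hder) 0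
    have hder1 : HasDerivAt (fun σ => F σ (x j) 1) (X (x j) 1) 0 := (hasDerivAt_pi.1 hder) 1
    have htj := tt_pos j
    have e0 : ∀ᶠ σ in 𝓝 (0:ℝ), |F σ (x j) 0 - x j 0| < 1 / m j := by
      have hc : ContinuousAt (fun σ => |F σ (x j) 0 - x j 0|) 0 :=
        (hder0.continuousAt.sub continuousAt_const).abs
      refine hc.eventually (gt_mem_nhds ?_)
      change |F 0 (x j) 0 - x j 0| < 1 / m j
      rw [hF0 _ hj, sub_self, abs_zero]
      have := hmpos j
      positivity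
    have e1 : ∀ᶠ σ in 𝓝 (0:ℝ), |F σ (x j) 1 - x j 1| < tt j / 4 := by
      have hc : ContinuousAt (fun σ => |F σ (x j) 1 - x j 1|) 0 :=
        (hder1.continuousAt.sub continuousAt_const).abs
      refine hc.eventually (gt_mem_nhds ?_)
      change |F 0 (x j) 1 - x j 1| < tt j / 4
      rw [hF0 _ hj, sub_self, abs_zero]
      positivity
    have e2 : ∀ᶠ σ in 𝓝 (0:ℝ), |σ| < ε := by
      have hc : ContinuousAt (fun σ : ℝ => |σ|) 0 := continuous_abs.continuousAt
      exact hc.eventually (gt_mem_nhds (by simpa using hε))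
    have hconst : (fun σ => F σ (x j) 0) =ᶠ[𝓝 0] fun _ => x j 0 := by
      filter_upwards [e0, e1, e2] with σ h0 h1 h2
      obtain ⟨V, g, H⟩ := hFcr σ h2
      have hz : ψ (F σ (x j) 0, F σ (x j) 1) = 0 := by
        rw [levi_iff hψ H hj]; exact hψ0
      have hx1 : x j 1 = tt j := by simp [hx]
      have hx0 : x j 0 = (⌊m j * q 0⌋ : ℝ) / m j := by simp [hx]
      rw [hx1] at h1
      have hpos : 0 < F σ (x j) 1 := by
        have := (abs_lt.1 h1).1
        linarith
      obtain ⟨i, hi, k, hk⟩ := hzero _ _ hpos hz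
      have hij : i = j := by
        by_contra hne
        have h3 := sep hne h1
        rw [hi] at h3
        have := tt_pos i
        simp at h3
        linarith
      subst hij
      rw [hk, hx0]
      rw [hk, hx0, ← sub_div, abs_div, abs_of_pos (hmpos i)] at h0
      have h4 : |(k : ℝ) - ⌊m i * q 0⌋| < 1 := by
        rwa [div_lt_div_iff_of_pos_right (hmpos i)] at h0
      have h5 : |k - ⌊m i * q 0⌋| < 1 := by exact_mod_cast h4
      have h6 : k = ⌊m i * q 0⌋ := by
        rw [Int.abs_lt_one_iff] at h5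
        omega
      rw [h6]
    have h7 : HasDerivAt (fun σ => F σ (x j) 0) 0 0 :=
      (hasDerivAt_const (0:ℝ) (x j 0)).congr_of_eventuallyEq hconst
    exact hder0.unique h7
  have hlim0 : Tendsto (fun j => X (x j) 0) atTop (𝓝 0) :=
    tendsto_const_nhds.congr' (hev.mono fun j hj => hj.symm)
  exact tendsto_nhds_unique hlimX hlim0

/-- the embedding of the hyperplane `{x 1 = 0}` -/
noncomputable def iotaL : EuclideanSpace ℝ (Fin 4) →L[ℝ] (Fin 5 → ℝ) :=
  ContinuousLinearMap.pi ![EuclideanSpace.proj 0, 0, EuclideanSpace.proj 1, EuclideanSpace.proj 2,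
    EuclideanSpace.proj 3]

lemma iotaL_apply (v : EuclideanSpace ℝ (Fin 4)) : iotaL v = ![v 0, 0, v 1, v 2, v 3] := by
  funext i
  fin_cases i <;> simp [iotaL]

lemma iotaL_injective : Function.Injective iotaL := by
  intro v w h
  rw [iotaL_apply, iotaL_apply] at h
  ext i
  fin_cases i
  · simpa using congrFun h 0
  · simpa using congrFun h 2
  · simpa using congrFun h 3
  · simpa using congrFun h 4

end example_

/-- The answer to the second question is negative. -/
theorem result : ∃ (n r : ℕ) (S : CRStructure n r) (p : Fin n → ℝ) (k : ℕ) (N : Type)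
    (_ : TopologicalSpace N) (_ : ChartedSpace (EuclideanSpace ℝ (Fin k)) N),
    IsManifold (𝓡 k) ∞ N ∧ T2Space N ∧ SecondCountableTopology N ∧
    ∃ ι : N → (Fin n → ℝ),
      IsInjectiveImmersion (EuclideanSpace ℝ (Fin k)) (Fin n → ℝ) N ι ∧
      Set.range ι = S.orbit p ∧
      ∃ y : N, Submodule.span ℝ {v : Fin n → ℝ | ∃ X, S.IsInfinitesimalAut (ι y) X ∧ X (ι y) = v} ≠
        tangentSpaceOfImage (EuclideanSpace ℝ (Fin k)) (Fin n → ℝ) N ι y := by
  obtain ⟨ψ, m, hψ, hneg, hm, hzero, hlat, hsh⟩ := exists_psi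
  have hmf : ∀ v : EuclideanSpace ℝ (Fin 4),
      mfderiv (𝓡 4) 𝓘(ℝ, Fin 5 → ℝ) (iotaL : EuclideanSpace ℝ (Fin 4) → (Fin 5 → ℝ)) v = iotaL := by
    intro v
    rw [mfderiv_eq_fderiv]
    exact iotaL.fderiv
  refine ⟨5, 1, SS hψ, 0, 4, EuclideanSpace ℝ (Fin 4), inferInstance, inferInstance,
    inferInstance, inferInstance, inferInstance, iotaL, ⟨?_, iotaL_injective, ?_⟩, ?_, 0, ?_⟩
  · exact iotaL.contDiff.contMDiff
  · intro v
    rw [hmf v]
    exact iotaL_injective
  · ext q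
    constructor
    · rintro ⟨v, rfl⟩
      apply subset_orbit hψ hsh
      rw [iotaL_apply]; simp
    · intro hq
      have h1 := orbit_subset hψ hneg hzero hq
      refine ⟨WithLp.toLp 2 ![q 0, q 2, q 3, q 4], ?_⟩
      rw [iotaL_apply]
      funext i
      fin_cases i <;> simp [h1]
  · intro heq
    have h1 : (![1, 0, 0, 0, 0] : Fin 5 → ℝ) ∈
        tangentSpaceOfImage (EuclideanSpace ℝ (Fin 4)) (Fin 5 → ℝ) (EuclideanSpace ℝ (Fin 4)) iotaL 0 := by
      unfold tangentSpaceOfImage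
      rw [hmf 0]
      refine ⟨WithLp.toLp 2 ![1, 0, 0, 0], ?_⟩
      have := iotaL_apply (WithLp.toLp 2 ![1, 0, 0, 0])
      refine this.trans ?_
      funext i
      fin_cases i <;> simp
    rw [← heq] at h1
    have h2 : ∀ v ∈ Submodule.span ℝ {v : Fin 5 → ℝ | ∃ X,
        (SS hψ).IsInfinitesimalAut (iotaL 0) X ∧ X (iotaL 0) = v}, v 0 = 0 := by
      intro v hv
      induction hv using Submodule.span_induction with
      | mem v hv =>
        obtain ⟨X, hX, rfl⟩ := hv
        exact inf_zero hψ hm hzero hlat (by rw [iotaL_apply]; simp) hX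
      | zero => rfl
      | add v w _ _ hv hw => rw [Pi.add_apply, hv, hw, add_zero]
      | smul c v _ hv => rw [Pi.smul_apply, hv, smul_zero]
    have := h2 _ h1
    simp at this

end Pool.Agent.Results.MP_430a41_an.HolSpanFails
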